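import Pool.Agent.K1H17.SC.Low

/-! Covers of `W × ℙ¹ × ... × ℙ¹`: the construction of pluricanonical forms. -/

set_option autoImplicit false
set_option linter.overlappingInstances false
set_option linter.unusedSectionVars false
set_option linter.unusedVariables false

open FF IntermediateField Polynomial Pool.Agent.W619.PQ Pool.Agent.W619.PL Pool.Agent.W619.TW
  Pool.Agent.W603.LV Pool.Agent.W619.Y Pool.Agent.W672.PG Pool.Agent.W824.PG Pool.Agent.Y174
  Pool.Agent.K1H17.IS Pool.Agent.K1H17.TP Pool.Agent.K1H17.LP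

namespace Pool.Agent.K1H17.SC

section

variable {k : Type} [Field k] [CharZero k] [IsAlgClosed k] {L : Type} [Field L] [Algebra k L]
  {r s : ℕ} {M : IntermediateField k L} {x : Fin r → L} {f : Fin r → k[X]}
  {A : Fin s → Fin r → ℤ} {m : Fin s → ℕ} {τ z : Fin s → L}

/-- the elements of `L` which are algebraic over the subalgebra `R` -/
def CF (M : IntermediateField k L) (R : Subalgebra M L) : IntermediateField k L where
  carrier := {y | IsAlgebraic R y}
  mul_mem' := IsAlgebraic.mul
  add_mem' := IsAlgebraic.add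
  algebraMap_mem' c :=
    isAlgebraic_algebraMap (⟨algebraMap M L (algebraMap k M c), R.algebraMap_mem _⟩ : R)
  inv_mem' _ := IsAlgebraic.inv

theorem mem_CF {M : IntermediateField k L} {R : Subalgebra M L} {y : L} :
    y ∈ CF M R ↔ IsAlgebraic R y := Iff.rfl

theorem le_CF {M : IntermediateField k L} {R : Subalgebra M L} {y : L} (h : y ∈ R) :
    y ∈ CF M R := isAlgebraic_algebraMap (⟨y, h⟩ : R)

theorem base_le_CF (M : IntermediateField k L) (R : Subalgebra M L) : M ≤ CF M R :=
  fun y hy => le_CF (R.algebraMap_mem (⟨y, hy⟩ : M))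

theorem sc_le {ι : Type} {M E : IntermediateField k L} {T : Finset ι} {s : ℕ} {x : ι → L}
    {f : ι → k[X]} {A : Fin s → ι → ℤ} {m : Fin s → ℕ} {τ z : Fin s → L}
    (h : IsSC M E T x f A m τ z) :
    E ≤ CF M (Algebra.adjoin M (Set.range fun i : T => x i)) := by
  set R := Algebra.adjoin M (Set.range fun i : T => x i) with hR
  have hx : ∀ i ∈ T, x i ∈ CF M R := fun i hi =>
    le_CF (Algebra.subset_adjoin ⟨⟨i, hi⟩, rfl⟩)
  rw [← h.gen]
  refine sup_le (sup_le (base_le_CF M R) ?_) ?_
  · rw [adjoin_le_iff]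
    rintro _ ⟨i, hi, rfl⟩
    exact hx i hi
  · rw [adjoin_le_iff]
    rintro _ ⟨j, rfl⟩
    have h1 : z j ^ m j ∈ CF M R := by
      rw [h.root j]
      refine mul_mem (base_le_CF M R (h.mem j)) (prod_mem fun i hi => zpow_mem ?_ _)
      have e : aeval (x i) (f i) =
          ((aeval (⟨x i, hx i hi⟩ : CF M R) (f i) : CF M R) : L) :=
        IntermediateField.aeval_coe (CF M R) ⟨x i, hx i hi⟩ (f i)
      rw [e]
      exact SetLike.coe_mem _
    exact IsAlgebraic.of_pow (h.pos j) h1

theorem basis_sc {ι : Type} {M : IntermediateField k L} {T : Finset ι} {s : ℕ} {x : ι → L}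
    {f : ι → k[X]} {A : Fin s → ι → ℤ} {m : Fin s → ℕ} {τ z : Fin s → L}
    (h : IsSC M ⊤ T x f A m τ z) : IsTranscendenceBasis M (fun i : T => x i) := by
  refine h.indep.isTranscendenceBasis_iff_isAlgebraic.2 ⟨fun y => ?_⟩
  exact sc_le h (show y ∈ (⊤ : IntermediateField k L) from trivial)

theorem total {ι : Type} {M : IntermediateField k L} {T : Finset ι} {s : ℕ} {x : ι → L}
    {f : ι → k[X]} {A : Fin s → ι → ℤ} {m : Fin s → ℕ} {τ z : Fin s → L}
    (h : IsSC M ⊤ T x f A m τ z) {w0 : ℕ} (hM : Algebra.trdeg k M = w0) :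
    Algebra.trdeg k L = (w0 + T.card : ℕ) := by
  have h2 := (basis_sc h).cardinalMk_eq_trdeg
  rw [← trdeg_add_eq k M (A := L), hM, ← h2]
  simp

theorem tr_x (hc : IsSC M ⊤ Finset.univ x f A m τ z) (i : Fin r) : Transcendental k (x i) := by
  have h1 : Transcendental M (x i) := hc.indep.transcendental ⟨i, Finset.mem_univ i⟩
  intro h2
  exact h1 (h2.extendScalars (algebraMap k M).injective)

theorem dg (hc : IsSC M ⊤ Finset.univ x f A m τ z) (i : Fin r) : 1 ≤ (f i).natDegree :=
  hc.deg i (Finset.mem_univ i)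

theorem av_ne (hc : IsSC M ⊤ Finset.univ x f A m τ z) (i : Fin r) : aeval (x i) (f i) ≠ 0 :=
  fun h0 => ne_of_deg (dg hc i) (transcendental_iff.1 (tr_x hc i) _ h0)

theorem z_ne (hc : IsSC M ⊤ Finset.univ x f A m τ z) (j : Fin s) : z j ≠ 0 := by
  intro h0
  have h1 := hc.root j
  rw [h0, zero_pow (hc.pos j).ne'] at h1
  exact mul_ne_zero (hc.ne0 j) (Finset.prod_ne_zero_iff.2 (fun i _ =>
    zpow_ne_zero _ (av_ne hc i))) h1.symm

/-- the field of the product -/
abbrev NN (M : IntermediateField k L) (x : Fin r → L) : IntermediateField k L :=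
  M ⊔ adjoin k (Set.range x)

theorem top_eq (hc : IsSC M ⊤ Finset.univ x f A m τ z) : NN M x ⊔ adjoin k (Set.range z) = ⊤ := by
  have h := hc.gen
  rw [Finset.coe_univ, Set.image_univ] at h
  exact h

theorem av_mem (i : Fin r) : aeval (x i) (f i) ∈ NN M x := by
  have h1 : aeval (x i) (f i) = (aeval (lgen (k := k) (x i)) (f i) : ↥(adjoin k {x i})) := by
    rw [← IntermediateField.coe_val, ← Polynomial.aeval_algHom_apply]
    rfl
  have h2 : adjoin k {x i} ≤ NN M x := by
    refine le_sup_of_le_right (IntermediateField.adjoin.mono k _ _ ?_)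
    rintro _ rfl
    exact ⟨i, rfl⟩
  rw [h1]
  exact h2 (aeval (lgen (k := k) (x i)) (f i) : ↥(adjoin k {x i})).2

theorem root_mem (hc : IsSC M ⊤ Finset.univ x f A m τ z) (j : Fin s) : z j ^ m j ∈ NN M x := by
  rw [hc.root]
  refine mul_mem (le_sup_left (a := M) (hc.mem j)) (prod_mem fun i _ => zpow_mem (av_mem i) _)

theorem gal (hc : IsSC M ⊤ Finset.univ x f A m τ z) :
    FiniteDimensional ↥(NN M x) L ∧ IsGalois ↥(NN M x) L := by
  refine Pool.Agent.TH122.AB.galois_of_roots (NN M x) (S := Set.range z)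
    (Set.finite_range z) (fun L' h1 h2 => ?_) (M := ∏ j, m j)
    (Finset.prod_pos fun j _ => hc.pos j) ?_
  · rw [eq_top_iff, ← top_eq hc]
    exact sup_le h1 (IntermediateField.adjoin_le_iff.2 h2)
  · rintro _ ⟨j, rfl⟩
    obtain ⟨c, hc'⟩ := Finset.dvd_prod_of_mem m (Finset.mem_univ j)
    rw [hc', pow_mul]
    exact pow_mem (root_mem hc j) _

theorem indep_x (hc : IsSC M ⊤ Finset.univ x f A m τ z) : AlgebraicIndependent M x := by
  have h1 := hc.indep
  have h2 : (fun i : Fin r => x i) =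
      (fun i : (Finset.univ : Finset (Fin r)) => x i) ∘ fun i => ⟨i, Finset.mem_univ i⟩ := rfl
  have h3 := h1.comp (fun i : Fin r => (⟨i, Finset.mem_univ i⟩ : (Finset.univ : Finset (Fin r))))
    (fun a b h => congrArg Subtype.val h)
  exact h3

theorem essL (hc : IsSC M ⊤ Finset.univ x f A m τ z) (hess : Algebra.EssFiniteType k M) :
    Algebra.EssFiniteType k L := by
  have h1 : Algebra.EssFiniteType k ↥(NN M x) := by
    refine essFiniteType_iff.2 (IntermediateField.fg_sup (essFiniteType_iff.1 hess) ?_)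
    exact IntermediateField.fg_adjoin_of_finite (Set.finite_range x)
  have := (gal hc).1
  exact Algebra.EssFiniteType.comp k ↥(NN M x) L

theorem iSup_cons (M : IntermediateField k L) (x : Fin r → L) :
    (⨆ i : Fin (r + 1), (Fin.cons M (fun i => adjoin k {x i}) :
      Fin (r + 1) → IntermediateField k L) i) = NN M x := by
  apply le_antisymm
  · refine iSup_le fun i => ?_
    refine Fin.cases ?_ (fun i => ?_) i
    · exact le_sup_left
    · refine le_sup_of_le_right (IntermediateField.adjoin.mono k _ _ ?_)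
      rintro _ rfl
      exact ⟨i, rfl⟩
  · refine sup_le ?_ (IntermediateField.adjoin_le_iff.2 ?_)
    · exact le_iSup (Fin.cons M (fun i => adjoin k {x i}) :
        Fin (r + 1) → IntermediateField k L) 0
    · rintro _ ⟨i, rfl⟩
      exact (le_iSup (Fin.cons M (fun i => adjoin k {x i}) :
        Fin (r + 1) → IntermediateField k L) i.succ)
        (IntermediateField.mem_adjoin_simple_self k (x i))

/-- The multiplicities at a place of the cover. -/
theorem dvd_place (hc : IsSC M ⊤ Finset.univ x f A m τ z) (w : Place k L)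
    (hw : ∀ y : M, w.ord (y : L) = 0) (j : Fin s) :
    (m j : ℤ) ∣ ∑ i, A j i * mul w (tr_x hc i) (dg hc i) := by
  have h0 : ∀ i, aeval (x i) (f i) ≠ 0 := av_ne hc
  have h4 : ∀ i, ((aeval (lgen (k := k) (x i)) (f i) : ↥(adjoin k {x i})) : L) =
      aeval (x i) (f i) := fun i =>
    (Polynomial.aeval_algHom_apply (adjoin k {x i}).val (lgen (k := k) (x i)) (f i)).symm
  have h1 := congrArg w.ord (hc.root j)
  have hτ : w.ord (τ j) = 0 := hw ⟨τ j, hc.mem j⟩
  rw [w.ord_pow, w.ord_mul (hc.ne0 j) (Finset.prod_ne_zero_iff.2 fun i _ =>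
    zpow_ne_zero _ (h0 i)), ord_prod_zpow w _ _ h0, hτ, zero_add] at h1
  obtain ⟨I, hI⟩ : ∃ I : Fin r → ℤ, ∀ i, w.ord (aeval (x i) (f i)) =
      mul w (tr_x hc i) (dg hc i) + (f i).natDegree * I i := by
    refine ⟨fun i => (pdiv (lgen (k := k) (x i)) (line_of (tr_x hc i)).tr (f i)
      (ne_of_deg (dg hc i))).S.inf' (pdiv (lgen (k := k) (x i)) (line_of (tr_x hc i)).tr (f i)
      (ne_of_deg (dg hc i))).ne (fun y => w.ord (y : L)), fun i => ?_⟩
    rw [mul, DivData.ev, ← h4]
    change _ = w.ord ((aeval (lgen (k := k) (x i)) (f i) : ↥(adjoin k {x i})) : L) -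
      (f i).natDegree * _ + _
    ring
  have h2 : ∑ i, A j i * mul w (tr_x hc i) (dg hc i) =
      m j * w.ord (z j) - ∑ i, (A j i * (f i).natDegree) * I i := by
    rw [h1, ← Finset.sum_sub_distrib]
    refine Finset.sum_congr rfl fun i _ => ?_
    rw [hI]
    ring
  rw [h2]
  exact dvd_sub (dvd_mul_right _ _) (Finset.dvd_sum fun i hi => (hc.dvd j i hi).mul_right _)

/-- **The lower bound.** -/
theorem low2 (hc : IsSC M ⊤ Finset.univ x f A m τ z) {w0 : ℕ} (hM : Algebra.trdeg k M = w0)
    (hess : Algebra.EssFiniteType k M) (hκ : ¬ KodairaNeg k M w0)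
    (hd : ∀ i, 2 ≤ (f i).natDegree)
    (hv : ∀ v : Fin r → ℕ, v ≠ 0 → (∀ j, (m j : ℤ) ∣ ∑ i, A j i * v i) →
      1 ≤ ∑ i, (v i : ℚ) * (1 - 2 / (f i).natDegree)) : KodTr k L (w0 + r) 0 := by
  classical
  unfold KodairaNeg at hκ
  push Not at hκ
  obtain ⟨m0, hm0, ω, hω1, hω2, D1, hD1⟩ := hκ
  obtain ⟨y0, hy0⟩ := Pool.Agent.W636.PG.exists_basis k M w0 hM
  obtain ⟨E, hE⟩ := Pool.Agent.W636.PG.exists_duals k M w0 y0 hy0
  have hωE : ω E ≠ 0 := by
    intro h0
    apply hD1
    rw [Pool.Agent.W636.PG.form_eq k M w0 m0 y0 hy0 E hE ω hω1 D1, h0, mul_zero]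
  obtain ⟨N, hN⟩ : ∃ N : ℕ, N = ∏ i, (f i).natDegree := ⟨_, rfl⟩
  have hN0 : N ≠ 0 := by
    rw [hN]
    exact Finset.prod_ne_zero_iff.2 fun i _ => (by have := hd i; omega)
  choose c hcN using fun i => (Finset.dvd_prod_of_mem (fun i => (f i).natDegree)
    (Finset.mem_univ i))
  rw [← hN] at hcN
  obtain ⟨μ, hμ⟩ : ∃ μ : ℕ, μ = m0 * N := ⟨_, rfl⟩
  have hμ1 : 1 ≤ μ := by
    rw [hμ]
    exact Nat.one_le_iff_ne_zero.2 (Nat.mul_ne_zero (by omega) hN0)
  obtain ⟨e, he⟩ : ∃ e : Fin r → ℤ, ∀ i, e i = -(2 * m0 * c i : ℤ) := ⟨_, fun i => rfl⟩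
  have hed : ∀ i, e i * (f i).natDegree = -(2 * μ : ℤ) := by
    intro i
    have h1 : (μ : ℤ) = m0 * ((f i).natDegree * c i) := by
      rw [hμ, hcN i]
      push_cast
      ring
    rw [he, h1]
    ring
  have hess' := essL hc hess
  have htot : Algebra.trdeg k L = (w0 + r : ℕ) := by
    have := total hc hM
    rwa [Finset.card_univ, Fintype.card_fin] at this
  obtain ⟨a, ha⟩ : ∃ a : Fin (r + 1) → ℕ, a = Fin.cons w0 (fun _ => 1) := ⟨_, rfl⟩
  have hs : ∑ i, (Fin.cons w0 (fun _ => 1) : Fin (r + 1) → ℕ) i = w0 + r := by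
    rw [Fin.sum_univ_succ]
    simp
  have hav : ∀ i, (((aeval (lgen (k := k) (x i)) (f i)) ^ e i : ↥(adjoin k {x i})) : L) =
      aeval (x i) (f i) ^ e i := by
    intro i
    have h4 : ((aeval (lgen (k := k) (x i)) (f i) : ↥(adjoin k {x i})) : L) =
        aeval (x i) (f i) :=
      (Polynomial.aeval_algHom_apply (adjoin k {x i}).val (lgen (k := k) (x i)) (f i)).symm
    rw [← h4]
    exact map_zpow₀ (algebraMap ↥(adjoin k {x i}) L) _ _
  have hmain := kod_lbJ (k := k) (L := L) (r := r + 1) (h := 0)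
    (a := Fin.cons w0 (fun _ => 1)) hμ1
    (Fin.cons M (fun i => adjoin k {x i}) : Fin (r + 1) → IntermediateField k L) ?_
    (by rw [hs]; exact htot) hess'
    (fun i => Fin.cases (motive := fun i => Fin ((Fin.cons w0 (fun _ => 1) : Fin (r + 1) → ℕ) i) →
      ((Fin.cons M (fun i => adjoin k {x i}) : Fin (r + 1) → IntermediateField k L) i)) y0
      (fun i _ => lgen (k := k) (x i)) i)
    (fun i => ?_)
    (fun i => Fin.cases (motive := fun i => Fin 1 →
      ((Fin.cons M (fun i => adjoin k {x i}) : Fin (r + 1) → IntermediateField k L) i))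
      (fun _ => ω E ^ N) (fun i _ => (aeval (lgen (k := k) (x i)) (f i)) ^ e i) i)
    (fun i => ?_) ?_ ?_
  · rwa [hs] at hmain
  · rw [iSup_cons]
    have := (gal hc).1
    infer_instance
  · refine Fin.cases ?_ (fun i => ?_) i
    · exact hy0
    · exact line_basis (line_of (tr_x hc i))
  · refine Fin.cases ?_ (fun i => ?_) i
    · intro l
      exact pow_ne_zero _ hωE
    · intro l h0
      have h1 := hav i
      have h2 : (((aeval (lgen (k := k) (x i)) (f i)) ^ e i : ↥(adjoin k {x i})) : L) = 0 := by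
        have h3 : ((aeval (lgen (k := k) (x i)) (f i)) ^ e i : ↥(adjoin k {x i})) = 0 := h0
        rw [h3]
        rfl
      rw [h1] at h2
      exact zpow_ne_zero _ (av_ne hc i) h2
  · exact algebraicIndependent_empty_type_iff.2 (algebraMap k L).injective
  · intro w hw
    rw [hs] at hw
    by_cases htr : ∀ (i : Fin (r + 1)) (y : ((Fin.cons M (fun i => adjoin k {x i}) :
      Fin (r + 1) → IntermediateField k L) i)), w.ord (y : L) = 0
    · exact Or.inl htr
    right
    intro l
    obtain ⟨γ0, hγ0, hγ0', hγ0''⟩ := fac_reg (μ := μ) htot hM hess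
      (F := fun D => ω D ^ N) (by rw [hμ]; exact pluri_pow' hω1 N)
      (fun v hv => reg_pow' (hω2 v hv) N) y0 hy0 E hE hw
    choose γ d hd' hLG hγ1 hγ2 hγ3 using fun i => fac_line htot (tr_x hc i) (dg hc i)
      (hc.sqf i (Finset.mem_univ i)) (hed i) hw
    have hμ0 : (0 : ℝ) ≤ μ := Nat.cast_nonneg μ
    have hα : ∀ i, (e i : ℝ) + μ = μ * (1 - 2 / (f i).natDegree) := by
      intro i
      have h1 : ((f i).natDegree : ℝ) ≠ 0 := by
        have := hd i
        positivity
      have h2 : (e i : ℝ) * (f i).natDegree = -(2 * μ) := by exact_mod_cast hed i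
      field_simp
      linarith
    have hα0 : ∀ i, 0 ≤ (e i : ℝ) + μ := by
      intro i
      rw [hα]
      have h1 : (2 : ℝ) ≤ (f i).natDegree := by exact_mod_cast hd i
      have h2 : 2 / ((f i).natDegree : ℝ) ≤ 1 := by
        rw [div_le_one (by linarith)]
        exact h1
      exact mul_nonneg hμ0 (by linarith)
    have hγp : ∀ i, 0 ≤ γ i := fun i =>
      le_trans (mul_nonneg (Nat.cast_nonneg (d i)) (hα0 i)) (hγ3 i)
    refine ⟨Fin.cons γ0 γ, ?_, fun i => ?_⟩
    · rw [Fin.sum_univ_succ]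
      simp only [Fin.cons_zero, Fin.cons_succ]
      by_cases hW : ∃ y : M, w.ord (y : L) ≠ 0
      · have h1 := hγ0'' hW
        have h2 : 0 ≤ ∑ i, γ i := Finset.sum_nonneg fun i _ => hγp i
        linarith
      · push Not at hW
        by_cases hall : d = 0
        · have h1 : ∃ i, ∃ y : ↥(adjoin k {x i}), w.ord (y : L) ≠ 0 := by
            by_contra hcon
            push Not at hcon
            apply htr
            intro i
            refine Fin.cases ?_ (fun i => ?_) i
            · exact hW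
            · exact hcon i
          obtain ⟨i0, hi0⟩ := h1
          have h2 := hγ1 i0 hi0 (congrFun hall i0)
          have h3 : γ i0 ≤ ∑ i, γ i :=
            Finset.single_le_sum (f := γ) (fun i _ => hγp i) (Finset.mem_univ i0)
          linarith
        · have h1 := hv d hall fun j => by
            have h2 := dvd_place hc w hW j
            simp only [hd'] at h2
            exact h2
          have h2 : (1 : ℝ) ≤ ∑ i, (d i : ℝ) * (1 - 2 / (f i).natDegree) := by
            have h3 : ((1 : ℚ) : ℝ) ≤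
                ((∑ i, (d i : ℚ) * (1 - 2 / (f i).natDegree) : ℚ) : ℝ) := by
              exact_mod_cast h1
            push_cast at h3
            exact h3
          have h3 : (μ : ℝ) ≤ ∑ i, γ i := by
            calc (μ : ℝ) = μ * 1 := (mul_one _).symm
              _ ≤ μ * ∑ i, (d i : ℝ) * (1 - 2 / (f i).natDegree) :=
                mul_le_mul_of_nonneg_left h2 hμ0
              _ = ∑ i, (d i : ℝ) * ((e i : ℝ) + μ) := by
                rw [Finset.mul_sum]
                refine Finset.sum_congr rfl fun i _ => ?_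
                rw [hα]
                ring
              _ ≤ ∑ i, γ i := Finset.sum_le_sum fun i _ => hγ3 i
          linarith
    · refine Fin.cases ?_ (fun i => ?_) i
      · exact hγ0
      · have h1 := hLG i
        rw [← hav i] at h1
        exact h1

end

end Pool.Agent.K1H17.SC
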