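import Pool.Agent.K1H17.SC.Rul

/-! Covers of `W × ℙ¹ × ... × ℙ¹`: the definitions for the final statements. -/

set_option autoImplicit false
set_option linter.overlappingInstances false

open FF IntermediateField Polynomial

namespace Pool.Agent.K1H17.SC

/-- `L` is the field of rational functions of an abelian cover of the product of a variety `W` with
the function field `M` and of `r` projective lines with the coordinates `x i`, given by the equations
`z j ^ m j = τ j * ∏ i, (f i (x i)) ^ A j i` (`j < s`), where the `τ j` are arbitrary nonzero rational
functions on `W`, the nonconstant polynomials `f i` have only simple zeros, and `m j` divides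
`A j i * deg (f i)`. So the cover is branched only over divisors which come from `W` and over the
zeros of the `f i`, and all zeros of one `f i` have the same exponents. -/
structure IsFibreCover {k L : Type} [Field k] [Field L] [Algebra k L] (M : IntermediateField k L)
    {r s : ℕ} (x : Fin r → L) (f : Fin r → k[X]) (A : Fin s → Fin r → ℤ) (m : Fin s → ℕ)
    (τ z : Fin s → L) : Prop where
  indep : AlgebraicIndependent M x
  deg : ∀ i, 1 ≤ (f i).natDegree
  sqf : ∀ i, Squarefree (f i)
  pos : ∀ j, 0 < m j
  mem : ∀ j, τ j ∈ M
  ne0 : ∀ j, τ j ≠ 0
  root : ∀ j, z j ^ m j = τ j * ∏ i, aeval (x i) (f i) ^ A j i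
  dvd : ∀ j i, (m j : ℤ) ∣ A j i * (f i).natDegree
  gen : M ⊔ IntermediateField.adjoin k (Set.range x ∪ Set.range z) = ⊤

/-- The visible rulings of the cover, in terms of the exponents `A`, `m` and the numbers `d i` of
zeros of the polynomials: some line has at most two branch points, or the cover is not branched over
one of the lines, or two of the lines have three branch points each and opposite exponents. -/
def VisiblyRuled {r s : ℕ} (d : Fin r → ℕ) (A : Fin s → Fin r → ℤ) (m : Fin s → ℕ) : Prop :=
  (∃ i, d i ≤ 2) ∨ (∃ i, ∀ j, (m j : ℤ) ∣ A j i) ∨
    ∃ a b, a ≠ b ∧ d a = 3 ∧ d b = 3 ∧ ∀ j, (m j : ℤ) ∣ A j a + A j b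

/-- The variety with the function field `L` is birational to `B × ℙ¹` for some variety `B`. -/
def IsRuled (k L : Type) [Field k] [Field L] [Algebra k L] : Prop :=
  ∃ (B : IntermediateField k L) (t : L), Transcendental B t ∧ IntermediateField.adjoin B {t} = ⊤

end Pool.Agent.K1H17.SC
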