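import Pool.Agent.K1H17.SC.Str
import Pool.Agent.K1H26.SC.Tra
import Pool.Agent.K1H99.SC.RRC

/-! Covers of `W × ℙ¹ × ... × ℙ¹` without tensor differentials: the final statement. -/

set_option autoImplicit false
set_option linter.overlappingInstances false

open FF IntermediateField Polynomial Pool.Agent.W619.PQ Pool.Agent.W619.TW

namespace Pool.Agent.K1H17.SC

section

variable {k : Type} [Field k] [CharZero k] [IsAlgClosed k] {L : Type} [Field L] [Algebra k L]

/-- A cover of `W × ℙ¹ × ... × ℙ¹` which is dominated by a variety without tensor differentials is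
rational and rationally connected. -/
theorem rational_fin {K : Type} [Field K] [Algebra k K] {n : ℕ}
    (hn : Algebra.trdeg k K = n) {M : IntermediateField k L} {w : ℕ}
    (hM : Algebra.trdeg k M = w) (hess : Algebra.EssFiniteType k M) (hW : ¬ KodairaNeg k M w)
    {r s : ℕ} {x : Fin r → L} {f : Fin r → k[X]} {A : Fin s → Fin r → ℤ} {m : Fin s → ℕ}
    {τ z : Fin s → L} (hX : IsFibreCover M x f A m τ z) (φ : L →ₐ[k] K)
    (hT : TensorVanish k K n) :
    w = 0 ∧ (∃ t : Fin r → L, AlgebraicIndependent k t ∧ adjoin k (Set.range t) = ⊤) ∧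
      Pool.Agent.K1H17.MT.RationallyConnected k L := by
  obtain ⟨h1, t, h2, h3⟩ := rational_of_vanish Pool.Agent.K1H26.SC.t_TRA hn hM hess hW hX φ hT
  exact ⟨h1, ⟨t, h2, h3⟩, Pool.Agent.K1H99.SC.t_RRC k L r t h2 h3⟩

end

end Pool.Agent.K1H17.SC
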