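import Mathlib

/-! Abelian covers of products `W × ℙ¹ × ... × ℙ¹` with one type of branch points over each line:
the interface. -/

set_option autoImplicit false
set_option linter.overlappingInstances false

open Polynomial IntermediateField

namespace Pool.Agent.K1H17.SC

section

variable {k L : Type} [Field k] [Field L] [Algebra k L] {ι : Type}

/-- `E` is generated over the function field `M` of a variety by independent variables `x i`
(`i ∈ T`) and by roots `z j ^ m j = τ j * ∏ i ∈ T, (f i (x i)) ^ A j i`. -/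
structure IsSC (M E : IntermediateField k L) (T : Finset ι) {s : ℕ} (x : ι → L) (f : ι → k[X])
    (A : Fin s → ι → ℤ) (m : Fin s → ℕ) (τ z : Fin s → L) : Prop where
  indep : AlgebraicIndependent M (fun i : T => x i)
  deg : ∀ i ∈ T, 1 ≤ (f i).natDegree
  sqf : ∀ i ∈ T, Squarefree (f i)
  pos : ∀ j, 0 < m j
  mem : ∀ j, τ j ∈ M
  ne0 : ∀ j, τ j ≠ 0
  root : ∀ j, z j ^ m j = τ j * ∏ i ∈ T, aeval (x i) (f i) ^ A j i
  dvd : ∀ j, ∀ i ∈ T, (m j : ℤ) ∣ A j i * (f i).natDegree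
  gen : M ⊔ adjoin k (x '' T) ⊔ adjoin k (Set.range z) = E

/-- `E` is generated over the intermediate field of the same kind `E'` with fewer variables by
independent variables. -/
def Step (M E : IntermediateField k L) (T : Finset ι) (s : ℕ) (x : ι → L) (f : ι → k[X]) : Prop :=
  ∃ (T' : Finset ι) (n : ℕ) (A' : Fin s → ι → ℤ) (m' : Fin s → ℕ) (τ' z' : Fin s → L)
    (E' : IntermediateField k L) (t : Fin n → L),
    T' ⊆ T ∧ T'.card + n = T.card ∧ 1 ≤ n ∧ IsSC M E' T' x f A' m' τ' z' ∧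
    E' ⊔ adjoin k (Set.range t) = E ∧ AlgebraicIndependent E' t

end

/-- Generators of the right number are independent. -/
def S_TRI : Prop := ∀ (k L : Type) [Field k] [Field L] [Algebra k L] (ι : Type)
  (M E E' : IntermediateField k L) (T T' : Finset ι) (s s' n : ℕ) (x : ι → L) (f : ι → k[X])
  (A : Fin s → ι → ℤ) (m : Fin s → ℕ) (τ z : Fin s → L) (A' : Fin s' → ι → ℤ) (m' : Fin s' → ℕ)
  (τ' z' : Fin s' → L) (t : Fin n → L), IsSC M E T x f A m τ z → IsSC M E' T' x f A' m' τ' z' →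
  T' ⊆ T → T'.card + n = T.card → E' ⊔ adjoin k (Set.range t) = E → AlgebraicIndependent E' t

/-- A factor over which the cover is not branched. -/
def S_UNB : Prop := ∀ (k L : Type) [Field k] [CharZero k] [IsAlgClosed k] [Field L] [Algebra k L]
  (ι : Type) (M E : IntermediateField k L) (T : Finset ι) (s : ℕ) (x : ι → L) (f : ι → k[X])
  (A : Fin s → ι → ℤ) (m : Fin s → ℕ) (τ z : Fin s → L), IsSC M E T x f A m τ z →
  ∀ a ∈ T, (∀ j, (m j : ℤ) ∣ A j a) → Step M E T s x f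

/-- A factor with two branch points. -/
def S_TWO : Prop := ∀ (k L : Type) [Field k] [CharZero k] [IsAlgClosed k] [Field L] [Algebra k L]
  (ι : Type) (M E : IntermediateField k L) (T : Finset ι) (s : ℕ) (x : ι → L) (f : ι → k[X])
  (A : Fin s → ι → ℤ) (m : Fin s → ℕ) (τ z : Fin s → L), IsSC M E T x f A m τ z →
  ∀ a ∈ T, (f a).natDegree = 2 → Step M E T s x f

/-- Two factors with three branch points and with opposite exponents. -/
def S_CUB : Prop := ∀ (k L : Type) [Field k] [CharZero k] [IsAlgClosed k] [Field L] [Algebra k L]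
  (ι : Type) (M E : IntermediateField k L) (T : Finset ι) (s : ℕ) (x : ι → L) (f : ι → k[X])
  (A : Fin s → ι → ℤ) (m : Fin s → ℕ) (τ z : Fin s → L), IsSC M E T x f A m τ z →
  ∀ a ∈ T, ∀ b ∈ T, a ≠ b → (f a).natDegree = 3 → (f b).natDegree = 3 →
  (∀ j, (m j : ℤ) ∣ A j a + A j b) → Step M E T s x f

/-- The admissible vectors of weight less than one. -/
def S_CMB : Prop := ∀ (ι : Type) (T : Finset ι) (s : ℕ) (d : ι → ℕ) (A : Fin s → ι → ℤ)
  (m : Fin s → ℕ), (∀ j, 0 < m j) → (∀ i ∈ T, 1 ≤ d i) →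
  (∀ j, ∀ i ∈ T, (m j : ℤ) ∣ A j i * d i) → ∀ v : ι → ℕ, (∃ i ∈ T, v i ≠ 0) →
  (∀ j, (m j : ℤ) ∣ ∑ i ∈ T, A j i * v i) → ∑ i ∈ T, (v i : ℚ) * (1 - 2 / d i) < 1 →
  (∃ i ∈ T, d i ≤ 2) ∨ (∃ i ∈ T, ∀ j, (m j : ℤ) ∣ A j i) ∨
    ∃ a ∈ T, ∃ b ∈ T, a ≠ b ∧ d a = 3 ∧ d b = 3 ∧ ∀ j, (m j : ℤ) ∣ A j a + A j b

end Pool.Agent.K1H17.SC
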