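import Pool.Agent.K1H17.LP.Fin
import Pool.Agent.K1H17.SC.Stm

/-! Covers of `W × ℙ¹ × ... × ℙ¹`: logarithmic orders of the factors of the pluricanonical form. -/

set_option autoImplicit false
set_option linter.overlappingInstances false
set_option linter.unusedSectionVars false
set_option linter.unusedVariables false

open FF IntermediateField Polynomial Pool.Agent.W619.PQ Pool.Agent.W619.PL Pool.Agent.W619.TW
  Pool.Agent.W603.LV Pool.Agent.W619.Y Pool.Agent.W672.PG Pool.Agent.W824.PG Pool.Agent.Y174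
  Pool.Agent.K1H17.IS Pool.Agent.K1H17.TP Pool.Agent.K1H17.LP

namespace Pool.Agent.K1H17.SC

section

variable {k : Type} [Field k] [CharZero k] [IsAlgClosed k] {L : Type} [Field L] [Algebra k L]

theorem ne_of_deg {f : k[X]} (hf : 1 ≤ f.natDegree) : f ≠ 0 := by
  rintro rfl
  simp at hf

/-- The multiplicity of `f` along a place of `L`. -/
noncomputable def mul (w : Place k L) {x : L} (hx : Transcendental k x) {f : k[X]}
    (hf : 1 ≤ f.natDegree) : ℤ :=
  (pdiv (lgen (k := k) x) (line_of hx).tr f (ne_of_deg hf)).ev (fun y => w.ord (y : L))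

theorem fac_line {n : ℕ} (hn : Algebra.trdeg k L = n) {x : L} (hx : Transcendental k x)
    {f : k[X]} (hf : 1 ≤ f.natDegree) (hsq : Squarefree f) {μ : ℕ} {e : ℤ}
    (he : e * f.natDegree = -(2 * μ : ℤ)) {w : Place k L} (hw : IsDivisorial w n) :
    ∃ (γ : ℝ) (d : ℕ), mul w hx hf = d ∧
      LG w μ (fun _ : Fin 1 => x) (aeval x f ^ e) γ ∧
      ((∃ y : ↥(adjoin k {x}), w.ord (y : L) ≠ 0) → d = 0 → (μ : ℝ) ≤ γ) ∧ (d = 0 → 0 ≤ γ) ∧
      (d * ((e : ℝ) + μ) ≤ γ) := by
  classical
  have hf0 := ne_of_deg hf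
  have hl := line_of (k := k) hx
  have hxx : ((lgen (k := k) x : ↥(adjoin k {x})) : L) = x := rfl
  have h4 : ((aeval (lgen (k := k) x) f : ↥(adjoin k {x})) : L) = aeval x f :=
    (Polynomial.aeval_algHom_apply (adjoin k {x}).val (lgen (k := k) x) f).symm
  have hg : (((aeval (lgen (k := k) x) f) ^ e : ↥(adjoin k {x})) : L) = aeval x f ^ e := by
    rw [← h4]
    exact map_zpow₀ (algebraMap ↥(adjoin k {x}) L) _ _
  by_cases hcon : ∃ y : ↥(adjoin k {x}), w.ord (algebraMap ↥(adjoin k {x}) L y) ≠ 0
  · obtain ⟨c0, u, hu⟩ := exists_over (K := ↥(adjoin k {x})) w hcon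
    have hev : mul w hx hf = c0 * (pdiv (lgen (k := k) x) hl.tr f hf0).ev u.ord :=
      (pdiv (lgen (k := k) x) hl.tr f hf0).ev_scale (Int.natCast_nonneg c0) hu.2
    have hc0 : (1 : ℝ) ≤ c0 := by exact_mod_cast hu.1
    have hμ0 : (0 : ℝ) ≤ μ := Nat.cast_nonneg μ
    have hfrm := Pool.Agent.K1H33.LP.t_FRM k ↥(adjoin k {x}) (lgen (k := k) x) hl ![f, 1] ![e, 0] μ
      (by simpa using hsq)
    obtain ⟨F, hF⟩ : ∃ F : (Fin 1 → Derivation k ↥(adjoin k {x}) ↥(adjoin k {x})) →
        ↥(adjoin k {x}), F = fun D => (∏ c, aeval (lgen (k := k) x) ((![f, 1] : Fin 2 → k[X]) c) ^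
            (![e, 0] : Fin 2 → ℤ) c) *
          (Matrix.of fun i' _ => D i' (lgen (k := k) x) :
            Matrix (Fin 1) (Fin 1) ↥(adjoin k {x})).det ^ μ :=
      ⟨_, rfl⟩
    obtain ⟨E, hE⟩ := Pool.Agent.W636.PG.exists_duals k ↥(adjoin k {x}) 1
      (fun _ => lgen (k := k) x) (line_basis hl)
    have hFp : IsPluriForm k ↥(adjoin k {x}) 1 μ F := by
      rw [hF]
      exact pluri_det _ (fun _ => lgen (k := k) x)
    have hFE : F E = aeval (lgen (k := k) x) f ^ e := by
      rw [hF]
      have h5 : (Matrix.of fun i' _ => E i' (lgen (k := k) x) :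
          Matrix (Fin 1) (Fin 1) ↥(adjoin k {x})) = 1 := by
        refine Matrix.ext fun a b => ?_
        rw [Matrix.of_apply, Matrix.one_apply]
        exact hE a b
      simp only [h5, Matrix.det_one, one_pow, mul_one, Fin.prod_univ_two, Matrix.cons_val_zero,
        Matrix.cons_val_one, zpow_zero]
    have hLG : ∀ γ : ℝ, LogGe 1 u F γ →
        LG w μ (fun _ : Fin 1 => x) (aeval x f ^ e) (c0 * γ) := by
      intro γ hγ
      have h5 := lg_of_log (line_trdeg hl) hn (line_ess hl) hw hu F hFp hγ
        (fun _ => lgen (k := k) x) (line_basis hl) E hE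
      rw [hFE, hg] at h5
      exact h5
    rcases (Pool.Agent.K1H69.LP.t_PLC k ↥(adjoin k {x}) (lgen (k := k) x) hl).1 u with
      ⟨a, ha⟩ | hinf
    · have h5 := hfrm.1 u a ha
      rw [← hF] at h5
      simp only [Fin.sum_univ_two, Matrix.cons_val_zero, Matrix.cons_val_one, Int.cast_zero,
        zero_mul, add_zero] at h5
      have h6 := hLG _ h5
      have h7 : mul w hx hf = ((c0 * f.rootMultiplicity a : ℕ) : ℤ) := by
        rw [hev, (Pool.Agent.K1H69.LP.t_MUL k ↥(adjoin k {x}) (lgen (k := k) x) hl f hf0 u).1 a ha]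
        push_cast
        rfl
      have h8 : f.rootMultiplicity a ≤ 1 := by
        by_contra h
        push Not at h
        have h2 : (Polynomial.X - C a) ^ 2 ∣ f := (Polynomial.le_rootMultiplicity_iff hf0).1 h
        rw [pow_two] at h2
        exact Polynomial.not_isUnit_X_sub_C a (hsq _ h2)
      refine ⟨_, c0 * f.rootMultiplicity a, h7, h6, ?_, ?_, ?_⟩
      · intro _ h9
        have h10 : f.rootMultiplicity a = 0 := by
          rcases Nat.mul_eq_zero.1 h9 with h | h
          · have := hu.1
            omega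
          · exact h
        rw [h10]
        push_cast
        nlinarith
      · intro h9
        have h10 : f.rootMultiplicity a = 0 := by
          rcases Nat.mul_eq_zero.1 h9 with h | h
          · have := hu.1
            omega
          · exact h
        rw [h10]
        push_cast
        nlinarith
      · rcases Nat.le_one_iff_eq_zero_or_eq_one.1 h8 with h | h
        · rw [h]
          push_cast
          nlinarith
        · rw [h]
          push_cast
          linarith
    · have h5 := hfrm.2 u hinf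
      rw [← hF] at h5
      simp only [Fin.sum_univ_two, Matrix.cons_val_zero, Matrix.cons_val_one, Int.cast_zero,
        zero_mul, add_zero] at h5
      have h9 : -((e : ℝ) * f.natDegree) - μ = μ := by
        have h10 : (e : ℝ) * f.natDegree = -(2 * μ) := by exact_mod_cast he
        rw [h10]
        ring
      rw [h9] at h5
      have h6 := hLG _ h5
      refine ⟨_, 0, ?_, h6, fun _ _ => ?_, fun _ => by positivity, ?_⟩
      · rw [hev, (Pool.Agent.K1H69.LP.t_MUL k ↥(adjoin k {x}) (lgen (k := k) x) hl f hf0 u).2 hinf,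
          mul_zero]
        rfl
      · nlinarith
      · push_cast
        rw [zero_mul]
        positivity
  · push Not at hcon
    have hev : mul w hx hf = 0 := by
      have := (pdiv (lgen (k := k) x) hl.tr f hf0).ev_scale
        (o := fun y => w.ord (y : L)) (o' := fun _ => 0) le_rfl
        (fun y => by rw [mul_zero]; exact hcon y)
      rwa [zero_mul] at this
    refine ⟨0, 0, by rw [hev]; rfl, ?_, fun h => ?_, fun _ => le_rfl, by simp⟩
    · have h5 := lg_triv (m := μ) (w := w) (M := adjoin k {x}) (fun f => hcon f)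
        (fun _ : Fin 1 => lgen (k := k) x) ((aeval (lgen (k := k) x) f) ^ e)
      rw [hg] at h5
      exact h5
    · obtain ⟨y, hy⟩ := h
      exact absurd (hcon y) hy

/-- The factor with a regular pluricanonical form. -/
theorem fac_reg {n w0 : ℕ} (hn : Algebra.trdeg k L = n) {M : IntermediateField k L}
    (hM : Algebra.trdeg k M = w0) (hess : Algebra.EssFiniteType k M) {μ : ℕ}
    {F : (Fin w0 → Derivation k M M) → M} (hF : IsPluriForm k M w0 μ F)
    (hreg : ∀ v : Place k M, IsDivisorial v w0 → RegularAt v w0 F) (y : Fin w0 → M)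
    (hy : IsTranscendenceBasis k y) (E : Fin w0 → Derivation k M M)
    (hE : ∀ i j, E i (y j) = if i = j then 1 else 0) {w : Place k L} (hw : IsDivisorial w n) :
    ∃ γ : ℝ, LG w μ (fun p => (y p : L)) ((F E : M) : L) γ ∧ 0 ≤ γ ∧
      ((∃ f : M, w.ord (f : L) ≠ 0) → (μ : ℝ) ≤ γ) := by
  by_cases hcon : ∃ f : M, w.ord (algebraMap M L f) ≠ 0
  · obtain ⟨c0, u, hu⟩ := exists_over (K := M) w hcon
    have hdiv : IsDivisorial u w0 := Pool.Agent.Y174.pDIVR k M L w0 n u w c0 hM hn hu hw
    have h1 : LogGe w0 u F (μ + 0) := by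
      refine logGe_of_reg hM hess hdiv F hF fun D hD => ?_
      have h2 := hreg u hdiv D fun j f hf => hD j f hf
      rcases h2 with h2 | h2
      · exact Or.inl h2
      · exact Or.inr (by exact_mod_cast h2)
    rw [add_zero] at h1
    have h3 := lg_of_log hM hn hess hw hu F hF h1 y hy E hE
    have hc0 : (1 : ℝ) ≤ c0 := by exact_mod_cast hu.1
    have hμ0 : (0 : ℝ) ≤ μ := Nat.cast_nonneg μ
    exact ⟨_, h3, by positivity, fun _ => by nlinarith⟩
  · push Not at hcon
    refine ⟨0, lg_triv hcon y _, le_rfl, fun h => ?_⟩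
    obtain ⟨f, hf⟩ := h
    exact absurd (hcon f) hf

theorem pluri_pow' {K : Type} [Field K] [Algebra k K] {n m : ℕ}
    {F : (Fin n → Derivation k K K) → K} (hF : IsPluriForm k K n m F) (N : ℕ) :
    IsPluriForm k K n (m * N) (fun D => F D ^ N) := by
  intro A D
  change F _ ^ N = _
  rw [hF A D, mul_pow, pow_mul]

theorem reg_pow' {K : Type} [Field K] [Algebra k K] {n : ℕ}
    {F : (Fin n → Derivation k K K) → K} {v : Place k K} (hF : RegularAt v n F) (N : ℕ) :
    RegularAt v n (fun D => F D ^ N) := by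
  intro D hD
  have h1 := hF D hD
  rcases h1 with h1 | h1
  · rcases Nat.eq_zero_or_pos N with rfl | hN
    · refine Or.inr ?_
      change 0 ≤ v.ord (F D ^ 0)
      rw [pow_zero, v.ord_one]
    · refine Or.inl ?_
      change F D ^ N = 0
      rw [h1, zero_pow hN.ne']
  · refine Or.inr ?_
    change 0 ≤ v.ord (F D ^ N)
    rw [v.ord_pow]
    positivity

end

end Pool.Agent.K1H17.SC
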