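import Pool.Agent.K1H17.SC.Defs

/-! Covers of `W × ℙ¹ × ... × ℙ¹`: the equivalence. -/

set_option autoImplicit false
set_option linter.overlappingInstances false
set_option linter.unusedSectionVars false
set_option linter.unusedVariables false

open FF IntermediateField Polynomial Pool.Agent.W619.PQ Pool.Agent.W619.PL Pool.Agent.W619.TW
  Pool.Agent.W603.LV Pool.Agent.W619.Y Pool.Agent.W672.PG Pool.Agent.W824.PG Pool.Agent.Y174
  Pool.Agent.K1H17.IS Pool.Agent.K1H17.TP Pool.Agent.K1H17.LP

namespace Pool.Agent.K1H17.SC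

section

variable {k : Type} [Field k] [CharZero k] [IsAlgClosed k] {L : Type} [Field L] [Algebra k L]
  {M : IntermediateField k L} {r s : ℕ} {x : Fin r → L} {f : Fin r → k[X]}
  {A : Fin s → Fin r → ℤ} {m : Fin s → ℕ} {τ z : Fin s → L}

theorem IsFibreCover.sc (h : IsFibreCover M x f A m τ z) :
    IsSC M ⊤ Finset.univ x f A m τ z where
  indep := h.indep.comp (fun i : (Finset.univ : Finset (Fin r)) => (i : Fin r))
    Subtype.val_injective
  deg := fun i _ => h.deg i
  sqf := fun i _ => h.sqf i
  pos := h.pos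
  mem := h.mem
  ne0 := h.ne0
  root := h.root
  dvd := fun j i _ => h.dvd j i
  gen := by
    rw [Finset.coe_univ, Set.image_univ, sup_assoc, ← IntermediateField.adjoin_union, h.gen]

theorem IsFibreCover.vis_of (h : IsFibreCover M x f A m τ z) :
    VisiblyRuled (fun i => (f i).natDegree) A m ↔
      Vis Finset.univ (fun i => (f i).natDegree) A m := by
  simp [VisiblyRuled, Vis]

theorem IsFibreCover.kod (h : IsFibreCover M x f A m τ z) {w : ℕ} (hM : Algebra.trdeg k M = w)
    (hess : Algebra.EssFiniteType k M) (hW : ¬ KodairaNeg k M w)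
    (hv : ¬ VisiblyRuled (fun i => (f i).natDegree) A m) : ¬ KodairaNeg k L (w + r) := by
  have h1 : KodTr k L (w + r) 0 := by
    refine low2 h.sc hM hess hW (fun i => ?_) fun v hv0 hvd => ?_
    · by_contra hcon
      exact hv (Or.inl ⟨i, by show (f i).natDegree ≤ 2; omega⟩)
    · by_contra hcon
      push Not at hcon
      obtain ⟨i0, hi0⟩ := Function.ne_iff.1 hv0
      have h2 := cmb (Fin r) Finset.univ s (fun i => (f i).natDegree) A m h.pos
        (fun i _ => h.deg i) (fun j i _ => h.dvd j i) v ⟨i0, Finset.mem_univ _, hi0⟩ hvd hcon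
      exact hv (h.vis_of.2 h2)
  exact fun h2 => kod0_iff.2 h2 h1

theorem IsFibreCover.tfae (h : IsFibreCover M x f A m τ z) {w : ℕ} (hM : Algebra.trdeg k M = w)
    (hess : Algebra.EssFiniteType k M) (hW : ¬ KodairaNeg k M w) :
    [KodairaNeg k L (w + r), ¬ IsPsef k L (w + r) (fun _ => False), IsUniruled k L (w + r),
      IsRuled k L, VisiblyRuled (fun i => (f i).natDegree) A m].TFAE := by
  have htot : Algebra.trdeg k L = (w + r : ℕ) := by
    have := total h.sc hM
    rwa [Finset.card_univ, Fintype.card_fin] at this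
  have hessL := essL h.sc hess
  have hst : VisiblyRuled (fun i => (f i).natDegree) A m →
      ∃ (C : IntermediateField k L) (σ : L), Transcendental C σ ∧
        IntermediateField.adjoin C {σ} = ⊤ ∧ Algebra.EssFiniteType k C := fun h1 =>
    step_ruled hess (step_of_vis h.sc (h.vis_of.1 h1))
  tfae_have 5 → 4 := fun h1 => by
    obtain ⟨C, σ, h2, h3, -⟩ := hst h1
    exact ⟨C, σ, h2, h3⟩
  tfae_have 5 → 3 := fun h1 => by
    obtain ⟨C, σ, h2, h3, h4⟩ := hst h1
    exact uniruled_of_ruled' htot h2 h3 h4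
  tfae_have 4 → 2 := fun h1 h5 => by
    obtain ⟨C, σ, h2, h3⟩ := h1
    exact pRULED k L C σ (w + r) htot h2 h3 h5
  tfae_have 2 → 1 := fun h1 => by
    rw [← kod0_iff]
    intro h2
    exact h1 (psef_of_eff (eff_of_kod0 h2))
  tfae_have 3 → 1 := fun h1 => kodairaNeg_of_uniruled hessL htot h1
  tfae_have 1 → 5 := fun h1 => by
    by_contra h2
    exact h.kod hM hess hW h2 h1
  tfae_finish

end

end Pool.Agent.K1H17.SC
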