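import Pool.Agent.K1H17.SC.Low2
import Pool.Agent.K1H21.SC.TRI
import Pool.Agent.K1H30.SC.Unb
import Pool.Agent.K1H45.SC.Two
import Pool.Agent.K1H96.SC.Cub
import Pool.Agent.K1H52.SC.Cmb
import Pool.Agent.K1H17.IS.Uf

/-! Covers of `W × ℙ¹ × ... × ℙ¹`: the rulings. -/

set_option autoImplicit false
set_option linter.overlappingInstances false
set_option linter.unusedSectionVars false
set_option linter.unusedVariables false

open FF IntermediateField Polynomial Pool.Agent.W619.PQ Pool.Agent.W619.PL Pool.Agent.W619.TW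
  Pool.Agent.W603.LV Pool.Agent.W619.Y Pool.Agent.W672.PG Pool.Agent.W824.PG Pool.Agent.Y174
  Pool.Agent.K1H17.IS Pool.Agent.K1H17.TP Pool.Agent.K1H17.LP

namespace Pool.Agent.K1H17.SC

section

variable {k : Type} [Field k] [CharZero k] [IsAlgClosed k] {L : Type} [Field L] [Algebra k L]

theorem tri : S_TRI := Pool.Agent.K1H21.SC.t_TRI
theorem unb : S_UNB := Pool.Agent.K1H30.SC.t_UNB tri
theorem two : S_TWO := Pool.Agent.K1H45.SC.t_TWO tri unb
theorem cub : S_CUB := Pool.Agent.K1H96.SC.t_CUB tri unb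
theorem cmb : S_CMB := Pool.Agent.K1H52.SC.t_CMB

/-- The visible rulings, for the exponents `A`, `m` and the numbers `d` of branch points. -/
def Vis {ι : Type} (T : Finset ι) {s : ℕ} (d : ι → ℕ) (A : Fin s → ι → ℤ) (m : Fin s → ℕ) :
    Prop :=
  (∃ i ∈ T, d i ≤ 2) ∨ (∃ i ∈ T, ∀ j, (m j : ℤ) ∣ A j i) ∨
    ∃ a ∈ T, ∃ b ∈ T, a ≠ b ∧ d a = 3 ∧ d b = 3 ∧ ∀ j, (m j : ℤ) ∣ A j a + A j b

/-- A visible ruling gives a step. -/
theorem step_of_vis {ι : Type} {M E : IntermediateField k L} {T : Finset ι} {s : ℕ} {x : ι → L}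
    {f : ι → k[X]} {A : Fin s → ι → ℤ} {m : Fin s → ℕ} {τ z : Fin s → L}
    (h : IsSC M E T x f A m τ z) (hv : Vis T (fun i => (f i).natDegree) A m) :
    Step M E T s x f := by
  rcases hv with ⟨i, hi, hd⟩ | ⟨i, hi, hA⟩ | ⟨a, ha, b, hb, hab, hda, hdb, hA⟩
  · have h1 := h.deg i hi
    have hd' : (f i).natDegree ≤ 2 := hd
    rcases (by omega : (f i).natDegree = 1 ∨ (f i).natDegree = 2) with h2 | h2
    · refine unb k L ι M E T s x f A m τ z h i hi fun j => ?_
      have h3 := h.dvd j i hi
      rwa [h2, Nat.cast_one, mul_one] at h3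
    · exact two k L ι M E T s x f A m τ z h i hi h2
  · exact unb k L ι M E T s x f A m τ z h i hi hA
  · exact cub k L ι M E T s x f A m τ z h a ha b hb hab hda hdb hA

theorem ess_sc {ι : Type} {M E : IntermediateField k L} {T : Finset ι} {s : ℕ} {x : ι → L}
    {f : ι → k[X]} {A : Fin s → ι → ℤ} {m : Fin s → ℕ} {τ z : Fin s → L}
    (h : IsSC M E T x f A m τ z) (hess : Algebra.EssFiniteType k M) :
    Algebra.EssFiniteType k E := by
  rw [← h.gen]
  refine essFiniteType_iff.2 (IntermediateField.fg_sup (IntermediateField.fg_sup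
    (essFiniteType_iff.1 hess) ?_) ?_)
  · exact IntermediateField.fg_adjoin_of_finite (T.finite_toSet.image x)
  · exact IntermediateField.fg_adjoin_of_finite (Set.finite_range z)

theorem tr_restrict {E' : IntermediateField k L} {S : Set L} {σ : L}
    {C : IntermediateField k L} (hC : C = (IntermediateField.adjoin E' S).restrictScalars k)
    (h : Transcendental (Algebra.adjoin E' S) σ) : Transcendental C σ := by
  have h1 : Transcendental (IntermediateField.adjoin E' S) σ :=
    IntermediateField.transcendental_adjoin_iff.2 h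
  intro h2
  apply h1
  have hmem0 : ∀ y : L, y ∈ C → y ∈ IntermediateField.adjoin E' S := by
    intro y h3
    rw [hC] at h3
    exact h3
  have hmem : ∀ y : C, (y : L) ∈ IntermediateField.adjoin E' S := fun y => hmem0 y y.2
  let φ : C →+* ↥(IntermediateField.adjoin E' S) :=
    { toFun := fun y => ⟨y, hmem y⟩
      map_one' := rfl
      map_mul' := fun _ _ => rfl
      map_zero' := rfl
      map_add' := fun _ _ => rfl }
  exact h2.ringHom_of_comp_eq φ (RingHom.id L) φ.injective (by ext y; rfl)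

theorem adj_top {C : IntermediateField k L} {σ : L} (h : C ⊔ adjoin k {σ} = ⊤) :
    IntermediateField.adjoin C {σ} = ⊤ := by
  have h1 : (IntermediateField.adjoin C {σ}).restrictScalars k = ⊤ := by
    rw [IntermediateField.restrictScalars_adjoin, IntermediateField.adjoin_union,
      IntermediateField.adjoin_self, h]
  rw [eq_top_iff]
  intro y _
  have h2 : y ∈ (⊤ : IntermediateField k L) := trivial
  rw [← h1] at h2
  exact h2

/-- The ruling which is given by a step. -/
theorem step_ruled {ι : Type} {M : IntermediateField k L} {T : Finset ι} {s : ℕ} {x : ι → L}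
    {f : ι → k[X]} (hess : Algebra.EssFiniteType k M) (h : Step M ⊤ T s x f) :
    ∃ (C : IntermediateField k L) (σ : L), Transcendental C σ ∧
      IntermediateField.adjoin C {σ} = ⊤ ∧ Algebra.EssFiniteType k C := by
  obtain ⟨T', n, A', m', τ', z', E', t, hsub, hcard, hn, hsc, hE, hind⟩ := h
  obtain ⟨n', rfl⟩ : ∃ n', n = n' + 1 := ⟨n - 1, by omega⟩
  obtain ⟨S, hS⟩ : ∃ S : Set L, S = t '' {i | i ≠ Fin.last n'} := ⟨_, rfl⟩
  obtain ⟨C, hCd⟩ : ∃ C : IntermediateField k L, C = E' ⊔ adjoin k S := ⟨_, rfl⟩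
  have hC : C = (IntermediateField.adjoin E' S).restrictScalars k := by
    rw [hCd, IntermediateField.restrictScalars_adjoin, IntermediateField.adjoin_union,
      IntermediateField.adjoin_self]
  refine ⟨C, t (Fin.last n'), ?_, ?_, ?_⟩
  · refine tr_restrict hC ?_
    rw [hS]
    exact hind.transcendental_adjoin (s := {i | i ≠ Fin.last n'}) (i := Fin.last n')
      (fun h => h rfl)
  · apply adj_top
    have h1 : Set.range t = S ∪ {t (Fin.last n')} := by
      rw [hS]
      ext y
      constructor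
      · rintro ⟨i, rfl⟩
        by_cases hi : i = Fin.last n'
        · right
          rw [hi]
          rfl
        · left
          exact ⟨i, hi, rfl⟩
      · rintro (⟨i, -, rfl⟩ | h)
        · exact ⟨i, rfl⟩
        · exact ⟨_, h.symm⟩
    rw [← hE, h1, IntermediateField.adjoin_union, hCd, sup_assoc]
  · rw [hCd]
    refine essFiniteType_iff.2 (IntermediateField.fg_sup
      (essFiniteType_iff.1 (ess_sc hsc hess)) ?_)
    refine IntermediateField.fg_adjoin_of_finite ?_
    rw [hS]
    exact (Set.toFinite _).image t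

/-- A ruled variety is uniruled. -/
theorem uniruled_of_ruled' {n : ℕ} (hn : Algebra.trdeg k L = n) {C : IntermediateField k L} {σ : L}
    (hσ : Transcendental C σ) (hC : IntermediateField.adjoin C {σ} = ⊤)
    (hess : Algebra.EssFiniteType k C) : IsUniruled k L n := by
  have e1 : RatFunc C ≃ₐ[C] IntermediateField.adjoin C {σ} :=
    RatFunc.algEquivOfTranscendental σ hσ
  let e2 : IntermediateField.adjoin C {σ} ≃ₐ[C] L := (equivOfEq hC).trans topEquiv
  let e : RatFunc C ≃ₐ[k] L := (e1.trans e2).restrictScalars k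
  refine ⟨C, inferInstance, inferInstance, hess, ?_, ⟨(e.symm : L →ₐ[k] RatFunc C)⟩⟩
  obtain ⟨c, hc⟩ : ∃ c : ℕ, Algebra.trdeg k C = c := by
    apply Cardinal.lt_aleph0.1
    refine lt_of_le_of_lt (trdeg_le_of_injective C.val C.val.injective) ?_
    rw [hn]
    exact Cardinal.natCast_lt_aleph0
  obtain ⟨-, h2⟩ := ratFunc_data hess hc
  rw [hc]
  have h3 : Algebra.trdeg k (RatFunc C) = n := by
    rw [← hn]
    exact e.trdeg_eq
  rw [h3] at h2
  rw [h2]
  push_cast
  rfl

end

end Pool.Agent.K1H17.SC
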