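import Pool.Agent.K1H17.SC.Stm
import Pool.Agent.K1H17.MT.Defs

/-! Abelian covers of products of lines: statements for the structure theorem. -/

set_option autoImplicit false
set_option linter.overlappingInstances false

open Polynomial IntermediateField

namespace Pool.Agent.K1H17.SC

/-- Passage from a subfield `E` of `L` to the field `E`. -/
def S_TRA : Prop := ∀ (k L : Type) [Field k] [Field L] [Algebra k L] (ι : Type)
  (E : IntermediateField k L) (T : Finset ι) (s : ℕ) (x : ι → L) (f : ι → k[X])
  (A : Fin s → ι → ℤ) (m : Fin s → ℕ) (τ z : Fin s → L), IsSC ⊥ E T x f A m τ z →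
  ∃ (e : Fin T.card ≃ T) (x' : Fin T.card → E) (τ' z' : Fin s → E),
    IsSC (⊥ : IntermediateField k E) ⊤ Finset.univ x' (fun i => f (e i)) (fun j i => A j (e i))
      m τ' z'

/-- Rational varieties are rationally connected. -/
def S_RRC : Prop := ∀ (k K : Type) [Field k] [CharZero k] [IsAlgClosed k] [Field K] [Algebra k K]
  (n : ℕ) (t : Fin n → K), AlgebraicIndependent k t → adjoin k (Set.range t) = ⊤ →
  Pool.Agent.K1H17.MT.RationallyConnected k K

end Pool.Agent.K1H17.SC
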