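import Pool.Agent.K1H17.SC.Main
import Pool.Agent.K1H17.SC.Stm2
import Pool.Agent.K1H17.MT.Main

/-! Covers of `W × ℙ¹ × ... × ℙ¹`: the structure theorem. -/

set_option autoImplicit false
set_option linter.overlappingInstances false
set_option linter.unusedSectionVars false
set_option linter.unusedVariables false

open FF IntermediateField Polynomial Pool.Agent.W619.PQ Pool.Agent.W619.PL Pool.Agent.W619.TW
  Pool.Agent.W603.LV Pool.Agent.W619.Y Pool.Agent.W672.PG Pool.Agent.W824.PG Pool.Agent.Y174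
  Pool.Agent.K1H17.IS Pool.Agent.K1H17.TP Pool.Agent.K1H17.LP

namespace Pool.Agent.K1H17.SC

section

variable {k : Type} [Field k] [CharZero k] [IsAlgClosed k] {L : Type} [Field L] [Algebra k L]

/-- The structure theorem: the field is purely transcendental over the field of a cover without
visible rulings. -/
theorem struct {ι : Type} {M : IntermediateField k L} {s : ℕ} {x : ι → L} {f : ι → k[X]}
    (N : ℕ) : ∀ (E : IntermediateField k L) (T : Finset ι) (A : Fin s → ι → ℤ) (m : Fin s → ℕ)
    (τ z : Fin s → L), T.card ≤ N → IsSC M E T x f A m τ z →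
    ∃ (E0 : IntermediateField k L) (T0 : Finset ι) (n : ℕ) (A0 : Fin s → ι → ℤ)
      (m0 : Fin s → ℕ) (τ0 z0 : Fin s → L) (t : Fin n → L), T0 ⊆ T ∧ T0.card + n = T.card ∧
      IsSC M E0 T0 x f A0 m0 τ0 z0 ∧ ¬ Vis T0 (fun i => (f i).natDegree) A0 m0 ∧
      E0 ⊔ adjoin k (Set.range t) = E ∧ AlgebraicIndependent E0 t := by
  induction N with
  | zero =>
    intro E T A m τ z hT h
    have hT0 : T = ∅ := Finset.card_eq_zero.1 (by omega)
    subst hT0
    refine ⟨E, ∅, 0, A, m, τ, z, Fin.elim0, subset_rfl, by simp, h, ?_, ?_, ?_⟩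
    · rintro (⟨i, hi, -⟩ | ⟨i, hi, -⟩ | ⟨i, hi, -⟩) <;> simp at hi
    · rw [Set.range_eq_empty, adjoin_empty, sup_bot_eq]
    · exact algebraicIndependent_empty_type_iff.2 (algebraMap E L).injective
  | succ N ih =>
    intro E T A m τ z hT h
    by_cases hv : Vis T (fun i => (f i).natDegree) A m
    · obtain ⟨T', n', A', m', τ', z', E', t', hsub, hcard, hn', hsc, hE, hind⟩ :=
        step_of_vis h hv
      obtain ⟨E0, T0, n, A0, m0, τ0, z0, t, h1, h2, h3, h4, h5, h6⟩ :=
        ih E' T' A' m' τ' z' (by omega) hsc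
      have h7 : T0.card + (n + n') = T.card := by omega
      have h8 : E0 ⊔ adjoin k (Set.range (Fin.append t t')) = E := by
        have h9 : Set.range (Fin.append t t') = Set.range t ∪ Set.range t' := by
          ext y
          constructor
          · rintro ⟨i, rfl⟩
            refine Fin.addCases (fun i => ?_) (fun i => ?_) i
            · left
              exact ⟨i, by rw [Fin.append_left]⟩
            · right
              exact ⟨i, by rw [Fin.append_right]⟩
          · rintro (⟨i, rfl⟩ | ⟨i, rfl⟩)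
            · exact ⟨Fin.castAdd n' i, by rw [Fin.append_left]⟩
            · exact ⟨Fin.natAdd n i, by rw [Fin.append_right]⟩
        rw [h9, IntermediateField.adjoin_union, ← sup_assoc, h5, hE]
      exact ⟨E0, T0, n + n', A0, m0, τ0, z0, Fin.append t t', h1.trans hsub, h7, h3, h4, h8,
        tri k L ι M E E0 T T0 s s (n + n') x f A m τ z A0 m0 τ0 z0 _ h h3 (h1.trans hsub) h7 h8⟩
    · refine ⟨E, T, 0, A, m, τ, z, Fin.elim0, subset_rfl, by simp, h, hv, ?_, ?_⟩
      · rw [Set.range_eq_empty, adjoin_empty, sup_bot_eq]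
      · exact algebraicIndependent_empty_type_iff.2 (algebraMap E L).injective

/-- The point has Kodaira dimension `0`. -/
theorem kod_point (K : Type) [Field K] [Algebra k K] :
    ¬ KodairaNeg k (⊥ : IntermediateField k K) 0 := by
  intro h
  have h1 := h 1 le_rfl (fun _ => 1) (fun A D => by simp) (fun v _ D _ => Or.inr (by
    rw [v.ord_one])) Fin.elim0
  exact one_ne_zero h1

theorem bot_trdeg (K : Type) [Field K] [Algebra k K] :
    Algebra.trdeg k (⊥ : IntermediateField k K) = (0 : ℕ) := by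
  rw [trdeg_eq_zero_iff.2 inferInstance]
  rfl

theorem bot_ess (K : Type) [Field K] [Algebra k K] :
    Algebra.EssFiniteType k (⊥ : IntermediateField k K) :=
  essFiniteType_iff.2 IntermediateField.fg_bot

/-- Covers of products of lines without visible rulings have nonnegative Kodaira dimension. -/
theorem kod_sub (hTR : S_TRA) {ι : Type} {s : ℕ} {x : ι → L} {f : ι → k[X]}
    {E : IntermediateField k L} {T : Finset ι} {A : Fin s → ι → ℤ} {m : Fin s → ℕ}
    {τ z : Fin s → L} (h : IsSC ⊥ E T x f A m τ z)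
    (hv : ¬ Vis T (fun i => (f i).natDegree) A m) :
    ¬ KodairaNeg k E T.card ∧ Algebra.trdeg k E = T.card := by
  obtain ⟨e, x', τ', z', h1⟩ := hTR k L ι E T s x f A m τ z h
  have hv' : ¬ Vis (Finset.univ : Finset (Fin T.card)) (fun i => (f (e i)).natDegree)
      (fun j i => A j (e i)) m := by
    intro h2
    apply hv
    rcases h2 with ⟨i, -, hi⟩ | ⟨i, -, hi⟩ | ⟨a, -, b, -, hab, h3, h4, h5⟩
    · exact Or.inl ⟨e i, (e i).2, hi⟩
    · exact Or.inr (Or.inl ⟨e i, (e i).2, hi⟩)
    · exact Or.inr (Or.inr ⟨e a, (e a).2, e b, (e b).2, fun h6 => hab (e.injective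
        (Subtype.ext h6)), h3, h4, h5⟩)
  have h2 : KodTr k E (0 + T.card) 0 := by
    refine low2 h1 (bot_trdeg E) (bot_ess E) (kod_point E) (fun i => ?_) fun v hv0 hvd => ?_
    · by_contra hcon
      exact hv' (Or.inl ⟨i, Finset.mem_univ _, by show (f (e i)).natDegree ≤ 2; omega⟩)
    · by_contra hcon
      push Not at hcon
      obtain ⟨i0, hi0⟩ := Function.ne_iff.1 hv0
      exact hv' (cmb (Fin T.card) Finset.univ s (fun i => (f (e i)).natDegree)
        (fun j i => A j (e i)) m h1.pos (fun i hi => h1.deg i hi) (fun j i hi => h1.dvd j i hi) v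
        ⟨i0, Finset.mem_univ _, hi0⟩ hvd hcon)
  rw [zero_add] at h2
  refine ⟨fun h3 => kod0_iff.2 h3 h2, ?_⟩
  have h3 := total h1 (bot_trdeg E)
  rwa [Finset.card_univ, Fintype.card_fin, zero_add] at h3

theorem eq_bot_of_trdeg {M : IntermediateField k L} (hM : Algebra.trdeg k M = (0 : ℕ)) :
    M = ⊥ := by
  have h1 : Algebra.IsAlgebraic k M := trdeg_eq_zero_iff.1 (by rw [hM]; rfl)
  exact IntermediateField.eq_bot_of_isAlgClosed_of_isAlgebraic M

theorem indep_bot {n : ℕ} {t : Fin n → L} (h : AlgebraicIndependent (⊥ : IntermediateField k L) t) :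
    AlgebraicIndependent k t :=
  h.restrictScalars (algebraMap k (⊥ : IntermediateField k L)).injective

/-- A variety with a dominant map to a cover of `W × ℙ¹ × ... × ℙ¹` and without tensor
differentials: the cover is rational. -/
theorem rational_of_vanish (hTR : S_TRA) {K : Type} [Field K] [Algebra k K] {n : ℕ}
    (hn : Algebra.trdeg k K = n) {M : IntermediateField k L} {w : ℕ}
    (hM : Algebra.trdeg k M = w) (hess : Algebra.EssFiniteType k M) (hW : ¬ KodairaNeg k M w)
    {r s : ℕ} {x : Fin r → L} {f : Fin r → k[X]} {A : Fin s → Fin r → ℤ} {m : Fin s → ℕ}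
    {τ z : Fin s → L} (hX : IsFibreCover M x f A m τ z) (φ : L →ₐ[k] K)
    (hT : TensorVanish k K n) :
    w = 0 ∧ ∃ t : Fin r → L, AlgebraicIndependent k t ∧ adjoin k (Set.range t) = ⊤ := by
  have hw : w = 0 := by
    by_contra hne
    exact Pool.Agent.K1H17.MT.not_vanish_of_kod hn (φ.comp M.val) hM hess
      (Nat.one_le_iff_ne_zero.2 hne) hW hT
  subst hw
  have hMb := eq_bot_of_trdeg hM
  subst hMb
  obtain ⟨E0, T0, n', A0, m0, τ0, z0, t, h1, h2, h3, h4, h5, h6⟩ :=
    struct (k := k) (L := L) _ ⊤ Finset.univ A m τ z le_rfl hX.sc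
  obtain ⟨h7, h8⟩ := kod_sub hTR h3 h4
  have hess0 : Algebra.EssFiniteType k E0 := ess_sc h3 (bot_ess L)
  have hT0 : T0.card = 0 := by
    by_contra hne
    exact Pool.Agent.K1H17.MT.not_vanish_of_kod hn (φ.comp E0.val) h8 hess0
      (Nat.one_le_iff_ne_zero.2 hne) h7 hT
  rw [hT0] at h8
  have hE0 := eq_bot_of_trdeg h8
  subst hE0
  rw [Finset.card_univ, Fintype.card_fin, hT0, zero_add] at h2
  subst h2
  refine ⟨rfl, t, indep_bot h6, ?_⟩
  rwa [bot_sup_eq] at h5

end

end Pool.Agent.K1H17.SC
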